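import Mathlib

set_option autoImplicit false

namespace Pool.Agent.H429S

noncomputable section

/-- letters of the free group on two generators -/
abbrev Lt := Fin 2 × Bool

/-- the inverse letter -/
def iv (x : Lt) : Lt := (x.1, !x.2)

/-- the factor of length `2h` of `w` centred at the boundary point `i` (between `i-1` and `i`) -/
def fac (w : ℤ → Lt) (h : ℕ) (i : ℤ) : Fin (2 * h) → Lt := fun t => w (i - h + (t : ℕ))

/-- its inverse word -/
def ifac (w : ℤ → Lt) (h : ℕ) (i : ℤ) : Fin (2 * h) → Lt := fun t => iv (w (i + h - 1 - (t : ℕ)))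

/-- numbering of the words of length `2h` -/
def code (h : ℕ) (f : Fin (2 * h) → Lt) : ℕ := (Fintype.equivFin (Fin (2 * h) → Lt) f : ℕ)

def key (w : ℤ → Lt) (h : ℕ) (i : ℤ) : ℕ := min (code h (fac w h i)) (code h (ifac w h i))

def ori (w : ℤ → Lt) (h : ℕ) (i : ℤ) : Bool := decide (code h (fac w h i) < code h (ifac w h i))

/-- the letters of `w` at the positions `lo, ..., hi - 1` form a reduced word -/
def Rd (w : ℤ → Lt) (lo hi : ℤ) : Prop := ∀ x, lo ≤ x → x + 1 < hi → w (x + 1) ≠ iv (w x)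

/-- weak local minima of the key -/
def Mk (w : ℤ → Lt) (h : ℕ) (i : ℤ) : Prop := ∀ j, |j - i| ≤ h → key w h i ≤ key w h j

/-- the word between the boundary points `a` and `b`, and its inverse -/
def seg (w : ℤ → Lt) (a b : ℤ) : List Lt := List.ofFn fun t : Fin (b - a).toNat => w (a + (t : ℕ))

def iseg (w : ℤ → Lt) (a b : ℤ) : List Lt :=
  List.ofFn fun t : Fin (b - a).toNat => iv (w (b - 1 - (t : ℕ)))

/-- `a < o < b` are consecutive markers -/
def Gap (w : ℤ → Lt) (h : ℕ) (o a b : ℤ) : Prop :=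
  a < o ∧ o < b ∧ Mk w h a ∧ Mk w h b ∧ ∀ c, a < c → c < b → ¬ Mk w h c

def gori (w : ℤ → Lt) (a b : ℤ) : Bool :=
  decide (Encodable.encode (seg w a b) < Encodable.encode (iseg w a b))

open Classical in
/-- the colour of the boundary point `o` at scale `q` -/
def col (w : ℤ → Lt) (q : ℕ) (o : ℤ) : Bool × Bool :=
  if hm : ∃ m, Mk w (4 * q) m ∧ |m - o| ≤ q then (true, ori w (4 * q) hm.choose)
  else if hg : ∃ p : ℤ × ℤ, Gap w (4 * q) o p.1 p.2 then (false, gori w hg.choose.1 hg.choose.2)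
  else (false, false)

/-- the letters of a free group element, extended to all integers -/
def lw (a : FreeGroup (Fin 2)) : ℤ → Lt := fun x =>
  if 0 ≤ x then a.toWord.getD x.toNat (0, true) else (0, true)

/-- the scale used for words of length `n` -/
def qq (n : ℕ) : ℕ := Nat.log 2 (Nat.log 2 n)

/-- reach of the colouring rule at scale `q` -/
def rad (q : ℕ) : ℕ := 100 * (q + 1) * 4 ^ (8 * q)

/-- the colouring -/
def cl (a : FreeGroup (Fin 2)) : Bool × (Bool × Bool) :=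
  (decide (qq a.toWord.length % 2 = 0), col (lw a) (qq a.toWord.length) ((a.toWord.length / 2 : ℕ) : ℤ))

/-! ### the pieces -/

def S_neq : Prop := ∀ (w : ℤ → Lt) (h : ℕ) (i j : ℤ), 1 ≤ h → |i - j| ≤ h →
  Rd w (min i j - h) (max i j + h) → fac w h i ≠ ifac w h j

def S_tie : Prop := ∀ (w : ℤ → Lt) (h : ℕ) (i j : ℤ), 1 ≤ h → |i - j| ≤ h →
  Rd w (min i j - h) (max i j + h) → key w h i = key w h j → ori w h i = ori w h j

def S_mk : Prop := ∀ (w : ℤ → Lt) (h : ℕ) (i : ℤ), ∃ m, Mk w h m ∧ |m - i| ≤ h * 4 ^ (2 * h)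

/-- the colour changes under a flip whose centre is near `o` -/
def S_flip : Prop := ∀ (w w' : ℤ → Lt) (q : ℕ) (s o o' : ℤ) (R : ℕ), 1 ≤ q → rad q ≤ R →
  (∀ x, |x - o| ≤ R → w' (s - x) = iv (w x)) → Rd w (o - R) (o + R) →
  |s + 1 - o' - o| ≤ q → col w q o ≠ col w' q o'

/-- the shape of `g a⁻¹ g` -/
def S_word : Prop := ∀ (g a : FreeGroup (Fin 2)), 4 * g.toWord.length + 4 ≤ a.toWord.length →
  ∃ s : ℤ,
    ((a.toWord.length : ℤ) - (g * a⁻¹ * g).toWord.length ≤ 2 * g.toWord.length) ∧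
    (((g * a⁻¹ * g).toWord.length : ℤ) - a.toWord.length ≤ 2 * g.toWord.length) ∧
    (|s + 1 - (((g * a⁻¹ * g).toWord.length / 2 : ℕ) : ℤ) - ((a.toWord.length / 2 : ℕ) : ℤ)| ≤
      2 * g.toWord.length + 2) ∧
    (∀ x : ℤ, 2 * (g.toWord.length : ℤ) ≤ x → x < a.toWord.length - 2 * (g.toWord.length : ℤ) →
      lw (g * a⁻¹ * g) (s - x) = iv (lw a x)) ∧
    Rd (lw a) 0 a.toWord.length

def S_asym : Prop := ∀ r : ℕ, ∃ n₀ : ℕ, ∀ n ≥ n₀, 4 * r + 4 ≤ n ∧ r ≤ qq n ∧
  rad (qq n) + 2 * r + 2 ≤ n / 2 ∧ ∀ n' : ℕ, n' ≤ n + r → n ≤ n' + r →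
    qq n' = qq n ∨ qq n' = qq n + 1 ∨ qq n = qq n' + 1

def S_fin : Prop := ∀ g : FreeGroup (Fin 2),
  {a : FreeGroup (Fin 2) | cl a = cl (g * a⁻¹ * g)}.Finite

end

end Pool.Agent.H429S
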